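import Mathlib
import Pool.Agent.R514.OC.Octa
import Pool.Agent.R514.OC.NotOcta

set_option autoImplicit false

/-!
# An octahedral Lipschitz-free space whose projective tensor product with the Euclidean plane is not octahedral

The metric space consists of three points at mutual distance `9` and of an infinite set of points, at mutual
distance `1`, at distance `5` from each of the three points; the Banach space is the Euclidean plane.  The
mathematical proof is by helper276.
-/

namespace Pool.Agent.Results.MP_05d620_an.PlaneOverPoints

open Pool.Agent.R514.OC
open Pool.Agent.H266R3.LF

/-- There are a pointed metric space `(M, o)` and a non-zero Banach space `X` such that the Lipschitz-free space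
`F(M)` has an octahedral norm, but the completed projective tensor product of `F(M)` and `X` does not. -/
theorem result : ∃ (M : Type) (_ : MetricSpace M) (o : M) (X : Type) (_ : NormedAddCommGroup X)
    (_ : NormedSpace ℝ X), CompleteSpace X ∧ Nontrivial X ∧ Octahedral (FreeSp M o) ∧
      ¬ Octahedral (ProjTensor (FreeSp M o) X) :=
  ⟨Mt, inferInstance, o, E2, inferInstance, inferInstance, inferInstance, inferInstance, octa, not_octa⟩

end Pool.Agent.Results.MP_05d620_an.PlaneOverPoints
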